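import Mathlib

set_option autoImplicit false

/-! Upper bound for products of prime powers over small primes (an upper Mertens bound). -/

namespace Pool.Agent.H38.ET

open Finset Real

/-- The primes up to `y`. -/
def pr (y : ℕ) : Finset ℕ := (Finset.range (y + 1)).filter Nat.Prime

theorem mem_pr {y p : ℕ} : p ∈ pr y ↔ p ≤ y ∧ p.Prime := by
  simp [pr]

theorem pr_succ_subset (y : ℕ) : pr y ⊆ pr (y + 1) := by
  intro p hp
  rw [mem_pr] at hp ⊢
  exact ⟨by omega, hp.2⟩

theorem sum_div_mul_log_le (y : ℕ) :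
    ∑ p ∈ pr y, ((y / p : ℕ) : ℝ) * log p ≤ log (y.factorial) := by
  induction y with
  | zero =>
    have : pr 0 = ∅ := by
      ext p
      simp only [mem_pr, Finset.notMem_empty, iff_false, not_and]
      intro h
      interval_cases p
      decide
    simp [this]
  | succ y ih =>
    have h1 : ∑ p ∈ pr (y + 1), (((y + 1) / p : ℕ) : ℝ) * log p
        = ∑ p ∈ pr (y + 1), ((y / p : ℕ) : ℝ) * log p
          + ∑ p ∈ (y + 1).primeFactors, log p := by
      have h2 : ∑ p ∈ (y + 1).primeFactors, log (p : ℝ)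
          = ∑ p ∈ pr (y + 1), (if p ∣ y + 1 then log (p : ℝ) else 0) := by
        rw [← Finset.sum_filter]
        apply Finset.sum_congr
        · ext p
          simp only [Nat.mem_primeFactors, mem_filter, mem_pr]
          constructor
          · rintro ⟨h1, h2, -⟩
            exact ⟨⟨Nat.le_of_dvd (by omega) h2, h1⟩, h2⟩
          · rintro ⟨⟨-, h1⟩, h2⟩
            exact ⟨h1, h2, by omega⟩
        · intros; rfl
      rw [h2, ← Finset.sum_add_distrib]
      apply Finset.sum_congr rfl
      intro p _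
      rw [Nat.succ_div]
      split_ifs with h
      · push_cast; ring
      · simp
    have h3 : ∑ p ∈ pr (y + 1), ((y / p : ℕ) : ℝ) * log p
        = ∑ p ∈ pr y, ((y / p : ℕ) : ℝ) * log p := by
      symm
      apply Finset.sum_subset (pr_succ_subset y)
      intro p hp1 hp2
      rw [mem_pr] at hp1 hp2
      have : y < p := by
        by_contra h
        exact hp2 ⟨by omega, hp1.2⟩
      rw [Nat.div_eq_of_lt this]
      simp
    have h4 : ∑ p ∈ (y + 1).primeFactors, log (p : ℝ) ≤ log ((y + 1 : ℕ) : ℝ) := by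
      rw [← Real.log_prod]
      · apply Real.log_le_log
        · apply Finset.prod_pos
          intro p hp
          exact_mod_cast (Nat.prime_of_mem_primeFactors hp).pos
        · have := Nat.le_of_dvd (by omega) (Nat.prod_primeFactors_dvd (y + 1))
          calc ∏ p ∈ (y + 1).primeFactors, (p : ℝ)
              = ((∏ p ∈ (y + 1).primeFactors, p : ℕ) : ℝ) := by push_cast; rfl
            _ ≤ _ := by exact_mod_cast this
      · intro p hp
        exact_mod_cast (Nat.prime_of_mem_primeFactors hp).ne_zero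
    rw [h1, h3, Nat.factorial_succ, Nat.cast_mul, Real.log_mul (by positivity) (by positivity)]
    linarith

theorem sum_log_div_le (y : ℕ) (hy : 1 ≤ y) :
    ∑ p ∈ pr y, log p / p ≤ log y + log 4 := by
  have hy0 : (0 : ℝ) < y := by exact_mod_cast hy
  have h1 : (y : ℝ) * ∑ p ∈ pr y, log p / p
      ≤ ∑ p ∈ pr y, ((y / p : ℕ) : ℝ) * log p + ∑ p ∈ pr y, log (p : ℝ) := by
    rw [Finset.mul_sum, ← Finset.sum_add_distrib]
    apply Finset.sum_le_sum
    intro p hp
    rw [mem_pr] at hp
    have hp0 : (0 : ℝ) < p := by exact_mod_cast hp.2.pos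
    have hl : 0 ≤ log (p : ℝ) := Real.log_natCast_nonneg p
    have h2 : (y : ℝ) / p ≤ ((y / p : ℕ) : ℝ) + 1 := by
      have h3 : y < p * (y / p + 1) := Nat.lt_mul_div_succ y hp.2.pos
      rw [div_le_iff₀ hp0]
      have : (y : ℝ) < (p : ℝ) * (((y / p : ℕ) : ℝ) + 1) := by exact_mod_cast h3
      linarith
    calc (y : ℝ) * (log p / p) = (y / p) * log p := by ring
      _ ≤ (((y / p : ℕ) : ℝ) + 1) * log p := mul_le_mul_of_nonneg_right h2 hl
      _ = _ := by ring
  have h2 : ∑ p ∈ pr y, log (p : ℝ) ≤ log 4 * y := by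
    have h3 := Chebyshev.theta_le_log4_mul_x (x := (y : ℝ)) hy0.le
    have h4 : Chebyshev.theta (y : ℝ) = ∑ p ∈ pr y, log (p : ℝ) := by
      rw [Chebyshev.theta_eq_sum_Icc, Nat.floor_natCast]
      apply Finset.sum_congr
      · ext p
        simp only [mem_filter, mem_Icc, mem_pr]
        constructor
        · rintro ⟨⟨h1, h2⟩, h3⟩; exact ⟨h2, h3⟩
        · rintro ⟨h1, h2⟩; exact ⟨⟨Nat.zero_le _, h1⟩, h2⟩
      · intros; rfl
    linarith
  have h3 := sum_div_mul_log_le y
  have h4 : log (y.factorial : ℝ) ≤ y * log y := by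
    rw [← Real.log_pow]
    apply Real.log_le_log (by positivity)
    exact_mod_cast Nat.factorial_le_pow y
  have h5 : (y : ℝ) * ∑ p ∈ pr y, log p / p ≤ y * (log y + log 4) := by
    linarith
  exact le_of_mul_le_mul_left h5 hy0

theorem sum_log_div_mul_le (y : ℕ) (hy : 1 ≤ y) :
    ∑ m ∈ Finset.Icc 2 y, log m / (m * (m - 1)) ≤ 2 - (log y + 2) / y := by
  induction y, hy using Nat.le_induction with
  | base => simp
  | succ y hy ih =>
    have hy0 : (0 : ℝ) < y := by exact_mod_cast hy
    rw [Finset.sum_Icc_succ_top (by omega)]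
    have h1 : log (((y + 1 : ℕ)) : ℝ) / (((y + 1 : ℕ) : ℝ) * (((y + 1 : ℕ) : ℝ) - 1))
        ≤ (log y + 2) / y - (log ((y + 1 : ℕ) : ℝ) + 2) / ((y + 1 : ℕ) : ℝ) := by
      push_cast
      have h2 : log ((y : ℝ) + 1) ≤ log y + 1 / y := by
        have h3 : log (((y : ℝ) + 1) / y) ≤ ((y : ℝ) + 1) / y - 1 :=
          Real.log_le_sub_one_of_pos (by positivity)
        rw [Real.log_div (by positivity) (by positivity)] at h3
        have h4 : ((y : ℝ) + 1) / y - 1 = 1 / y := by field_simp; ring
        linarith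
      have h5 : (log y + 2) / (y : ℝ) - (log ((y : ℝ) + 1) + 2) / ((y : ℝ) + 1)
          = ((log y + 2) * (y + 1) - (log ((y : ℝ) + 1) + 2) * y) / ((y + 1) * ((y + 1) - 1)) := by
        have h51 : (y : ℝ) + 1 - 1 = y := by ring
        rw [h51]
        field_simp
      rw [h5]
      have h6 : (0 : ℝ) < (y + 1) * ((y + 1) - 1) := by
        have : ((y : ℝ) + 1 - 1) = y := by ring
        rw [this]; positivity
      apply div_le_div_of_nonneg_right _ h6.le
      have h7 : (log y + 1 / y) * (y + 1) = log y * (y + 1) + 1 + 1 / y := by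
        field_simp
        ring
      have h8 : log ((y : ℝ) + 1) * (y + 1) ≤ (log y + 1 / y) * (y + 1) :=
        mul_le_mul_of_nonneg_right h2 (by positivity)
      have h9 : 1 / (y : ℝ) ≤ 1 := by
        rw [div_le_one hy0]; exact_mod_cast hy
      nlinarith
    linarith

theorem sum_log_div_pred_le (y : ℕ) (hy : 1 ≤ y) :
    ∑ p ∈ pr y, log p / (p - 1) ≤ log y + log 4 + 2 := by
  have h1 : ∑ p ∈ pr y, log (p : ℝ) / (p - 1)
      = ∑ p ∈ pr y, log (p : ℝ) / p + ∑ p ∈ pr y, log (p : ℝ) / (p * (p - 1)) := by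
    rw [← Finset.sum_add_distrib]
    apply Finset.sum_congr rfl
    intro p hp
    rw [mem_pr] at hp
    have h2 : (2 : ℝ) ≤ p := by exact_mod_cast hp.2.two_le
    have h3 : (p : ℝ) - 1 ≠ 0 := by linarith
    field_simp
    ring
  have h2 : ∑ p ∈ pr y, log (p : ℝ) / (p * (p - 1))
      ≤ ∑ m ∈ Finset.Icc 2 y, log (m : ℝ) / (m * (m - 1)) := by
    apply Finset.sum_le_sum_of_subset_of_nonneg
    · intro p hp
      rw [mem_pr] at hp
      rw [Finset.mem_Icc]
      exact ⟨hp.2.two_le, hp.1⟩
    · intro m hm _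
      rw [Finset.mem_Icc] at hm
      have h2 : (2 : ℝ) ≤ m := by exact_mod_cast hm.1
      have h3 : (0 : ℝ) ≤ (m : ℝ) - 1 := by linarith
      have := Real.log_natCast_nonneg m
      positivity
  have h3 := sum_log_div_mul_le y hy
  have h4 := sum_log_div_le y hy
  have h5 : 0 ≤ (log y + 2) / (y : ℝ) := by
    have := Real.log_natCast_nonneg y
    positivity
  linarith

/-- The main bound for products over small primes. -/
theorem prod_pow_le (y w : ℕ) (hy : 1 ≤ y) :
    ((∏ p ∈ pr y, p ^ (w / (p - 1)) : ℕ) : ℝ) ≤ (4 * exp 2 * y) ^ w := by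
  have hy0 : (0 : ℝ) < y := by exact_mod_cast hy
  have hpos : (0 : ℝ) < ((∏ p ∈ pr y, p ^ (w / (p - 1)) : ℕ) : ℝ) := by
    have : 0 < ∏ p ∈ pr y, p ^ (w / (p - 1)) := by
      apply Finset.prod_pos
      intro p hp
      exact pow_pos (mem_pr.mp hp).2.pos _
    exact_mod_cast this
  rw [← Real.log_le_log_iff hpos (by positivity), Real.log_pow,
    Real.log_mul (by positivity) (by positivity), Real.log_mul (by positivity) (by positivity),
    Real.log_exp]
  push_cast
  rw [Real.log_prod]
  · have h1 : ∑ p ∈ pr y, log ((p : ℝ) ^ (w / (p - 1)))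
        ≤ w * ∑ p ∈ pr y, log p / (p - 1) := by
      rw [Finset.mul_sum]
      apply Finset.sum_le_sum
      intro p hp
      rw [mem_pr] at hp
      rw [Real.log_pow]
      have h2 : 2 ≤ p := hp.2.two_le
      have h3 : ((w / (p - 1) : ℕ) : ℝ) ≤ (w : ℝ) / ((p : ℝ) - 1) := by
        have := @Nat.cast_div_le ℝ _ _ _ w (p - 1)
        rwa [Nat.cast_sub (by omega), Nat.cast_one] at this
      calc ((w / (p - 1) : ℕ) : ℝ) * log p ≤ (w : ℝ) / ((p : ℝ) - 1) * log p :=
            mul_le_mul_of_nonneg_right h3 (Real.log_natCast_nonneg p)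
        _ = _ := by ring
    have h2 := sum_log_div_pred_le y hy
    have h3 : (w : ℝ) * ∑ p ∈ pr y, log p / (p - 1) ≤ w * (log y + log 4 + 2) :=
      mul_le_mul_of_nonneg_left h2 (by positivity)
    linarith
  · intro p hp
    have := (mem_pr.mp hp).2.pos
    positivity

end Pool.Agent.H38.ET
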