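import Mathlib

set_option autoImplicit false
open LaurentPolynomial
open scoped Matrix

namespace Pool.Agent.H38.HT

section generic
variable {R : Type*} [CommRing R]

/-- The isometry matrix. -/
def PM (t s : R) : Matrix (Fin 8) (Fin 8) R :=
  !![1, -1, 0, 0, 0, 0, 0, 0;
    0, 0, 1, -1, 0, 0, 0, 0;
    -1 + s - s^2, t + 2*s - s^2, -t + 1 - 2*s + s^2, 1 - s + s^2, -s + s^2, t^2 - 3*t + 6 - 4*s, s - s^2, -t^2 + 3*t - 6 + 4*s;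
    -t + 1 - 2*s + s^2, 1 - s + s^2, -1 + s - s^2, t + 2*s - s^2, s - s^2, -t^2 + 3*t - 6 + 4*s, -s + s^2, t^2 - 3*t + 6 - 4*s;
    s, s, -s, -s, -s, 4, 1 + s, -4;
    t - 2 + 4*s, t - 2 + 4*s, -t + 2 - 4*s, -t + 2 - 4*s, -4*s, 2*t^2 - 7*t + 16, 4*s, -2*t^2 + 7*t - 15;
    -s, -s, s, s, 1 + s, -4, -s, 4;
    -t + 2 - 4*s, -t + 2 - 4*s, t - 2 + 4*s, t - 2 + 4*s, 4*s, -2*t^2 + 7*t - 15, -4*s, 2*t^2 - 7*t + 16]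

/-- Its inverse. -/
def PM' (t s : R) : Matrix (Fin 8) (Fin 8) R :=
  !![-t^2 + 2*t + s, t^2 - t + 1, -2*t^2 + 3*t - 1 + s, 2*t^2 - 3*t + 2 - s, -4*t + 6 - 3*s + s^2, t^2 - t, 4*t - 6 + 3*s - s^2, -t^2 + t;
    -t^2 + 2*t - 1 + s, t^2 - t + 1, -2*t^2 + 3*t - 1 + s, 2*t^2 - 3*t + 2 - s, -4*t + 6 - 3*s + s^2, t^2 - t, 4*t - 6 + 3*s - s^2, -t^2 + t;
    t^2 - t + 1, -t^2 + 2*t + s, 2*t^2 - 3*t + 2 - s, -2*t^2 + 3*t - 1 + s, 4*t - 6 + 3*s - s^2, -t^2 + t, -4*t + 6 - 3*s + s^2, t^2 - t;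
    t^2 - t + 1, -t^2 + 2*t - 1 + s, 2*t^2 - 3*t + 2 - s, -2*t^2 + 3*t - 1 + s, 4*t - 6 + 3*s - s^2, -t^2 + t, -4*t + 6 - 3*s + s^2, t^2 - t;
    4*t - 2 + s, -4*t + 2 - s, 8*t - 4 + 2*s, -8*t + 4 - 2*s, 16 - 7*s + 2*s^2, -4*t, -15 + 7*s - 2*s^2, 4*t;
    t, -t, 2*t, -2*t, 4, -t, -4, t + 1;
    -4*t + 2 - s, 4*t - 2 + s, -8*t + 4 - 2*s, 8*t - 4 + 2*s, -15 + 7*s - 2*s^2, 4*t, 16 - 7*s + 2*s^2, -4*t;
    -t, t, -2*t, 2*t, -4, t + 1, 4, -t]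

/-- The conjugate transpose of `PM`. -/
def PMs (t s : R) : Matrix (Fin 8) (Fin 8) R :=
  !![1, 0, -t^2 + t - 1, t^2 - 2*t + 1 - s, t, 4*t - 2 + s, -t, -4*t + 2 - s;
    -1, 0, -t^2 + 2*t + s, t^2 - t + 1, t, 4*t - 2 + s, -t, -4*t + 2 - s;
    0, 1, t^2 - 2*t + 1 - s, -t^2 + t - 1, -t, -4*t + 2 - s, t, 4*t - 2 + s;
    0, -1, t^2 - t + 1, -t^2 + 2*t + s, -t, -4*t + 2 - s, t, 4*t - 2 + s;
    0, 0, t^2 - t, -t^2 + t, -t, -4*t, t + 1, 4*t;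
    0, 0, -4*t + 6 - 3*s + s^2, 4*t - 6 + 3*s - s^2, 4, 16 - 7*s + 2*s^2, -4, -15 + 7*s - 2*s^2;
    0, 0, -t^2 + t, t^2 - t, t + 1, 4*t, -t, -4*t;
    0, 0, 4*t - 6 + 3*s - s^2, -4*t + 6 - 3*s + s^2, -4, -15 + 7*s - 2*s^2, 4, 16 - 7*s + 2*s^2]

/-- Gram matrix of the Hambleton-Teichner form plus two copies of H2. -/
def G1 (t s : R) : Matrix (Fin 8) (Fin 8) R :=
  !![t^2 + t + 3 + s + s^2, t^2 + t + 2 + s + s^2, t + 1 + s, t + s, 0, 0, 0, 0;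
    t^2 + t + 2 + s + s^2, t^2 + t + 3 + s + s^2, t + s, t + 1 + s, 0, 0, 0, 0;
    t + 1 + s, t + s, 2, 0, 0, 0, 0, 0;
    t + s, t + 1 + s, 0, 2, 0, 0, 0, 0;
    0, 0, 0, 0, 0, t - 1, 0, 0;
    0, 0, 0, 0, -1 + s, 0, 0, 0;
    0, 0, 0, 0, 0, 0, 0, t - 1;
    0, 0, 0, 0, 0, 0, -1 + s, 0]

/-- Gram matrix of the standard form of rank 4 plus two copies of H2. -/
def G0 (t s : R) : Matrix (Fin 8) (Fin 8) R :=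
  !![1, 0, 0, 0, 0, 0, 0, 0;
    0, 1, 0, 0, 0, 0, 0, 0;
    0, 0, 1, 0, 0, 0, 0, 0;
    0, 0, 0, 1, 0, 0, 0, 0;
    0, 0, 0, 0, 0, t - 1, 0, 0;
    0, 0, 0, 0, -1 + s, 0, 0, 0;
    0, 0, 0, 0, 0, 0, 0, t - 1;
    0, 0, 0, 0, 0, 0, -1 + s, 0]

set_option maxHeartbeats 4000000 in
theorem PM_mul_PM' (t s : R) (h : s * t = 1) : PM t s * PM' t s = 1 := by
  ext i j
  fin_cases i <;> fin_cases j <;>
    simp [PM, PM', Matrix.mul_apply, Fin.sum_univ_eight] <;> grind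

set_option maxHeartbeats 4000000 in
theorem PMs_mul_G1 (t s : R) (h : s * t = 1) : PMs t s * G1 t s = G0 t s * PM' t s := by
  ext i j
  fin_cases i <;> fin_cases j <;>
    simp [PMs, G1, G0, PM', Matrix.mul_apply, Fin.sum_univ_eight] <;> grind

end generic

end Pool.Agent.H38.HT

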