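import Mathlib

set_option autoImplicit false
open LaurentPolynomial
open scoped Matrix

namespace Pool.Agent.H38.HT

/-- The evaluation at `t = 1`. -/
noncomputable def aug : LaurentPolynomial ℤ →+* ℤ :=
  LaurentPolynomial.eval₂ (RingHom.id ℤ) (1 : ℤˣ)

/-- The involution `t ↦ t⁻¹`. -/
noncomputable def inv : LaurentPolynomial ℤ →+* LaurentPolynomial ℤ :=
  (LaurentPolynomial.invert (R := ℤ)).toRingEquiv.toRingHom

theorem inv_apply (a : LaurentPolynomial ℤ) : inv a = LaurentPolynomial.invert a := rfl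

theorem inv_T (n : ℤ) : inv (T n) = T (-n) := by simp [inv_apply]

theorem aug_T (n : ℤ) : aug (T n) = 1 := by simp [aug]

theorem aug_inv (a : LaurentPolynomial ℤ) : aug (inv a) = aug a := by
  have : (aug.comp inv) = aug := by
    refine AddMonoidAlgebra.ringHom_ext ?_ ?_
    · intro r
      have : (AddMonoidAlgebra.single 0 r : LaurentPolynomial ℤ) = C r := rfl
      simp [this]
    · intro n
      have : (AddMonoidAlgebra.single n 1 : LaurentPolynomial ℤ) = T n := rfl
      rw [this, RingHom.comp_apply, inv_T, aug_T, aug_T]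
  calc aug (inv a) = (aug.comp inv) a := rfl
    _ = aug a := by rw [this]

theorem coeff_inv_mul_self (a : LaurentPolynomial ℤ) :
    (inv a * a).coeff 0 = ∑ n ∈ a.coeff.support, (a.coeff n) ^ 2 := by
  classical
  rw [mul_comm, AddMonoidAlgebra.coeff_mul]
  rw [Finsupp.sum]
  refine Finset.sum_congr rfl ?_
  intro n hn
  rw [Finsupp.sum]
  have h1 : ∀ m ∈ (inv a).coeff.support,
      (if n + m = 0 then a.coeff n * (inv a).coeff m else 0)
        = if m = -n then a.coeff n * (inv a).coeff m else 0 := by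
    intro m _
    congr 1
    simp only [eq_iff_iff]
    omega
  rw [Finset.sum_congr rfl h1, Finset.sum_ite_eq']
  have h2 : (inv a).coeff (-n) = a.coeff n := by
    rw [inv_apply, LaurentPolynomial.invert_apply, neg_neg]
  have h3 : -n ∈ (inv a).coeff.support := by
    rw [Finsupp.mem_support_iff, h2]
    exact Finsupp.mem_support_iff.mp hn
  rw [if_pos h3, h2, sq]

theorem coeff_nonneg (a : LaurentPolynomial ℤ) : 0 ≤ (inv a * a).coeff 0 := by
  rw [coeff_inv_mul_self]
  exact Finset.sum_nonneg fun n _ => sq_nonneg _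

theorem coeff_pos (a : LaurentPolynomial ℤ) (ha : aug a ≠ 0) : 1 ≤ (inv a * a).coeff 0 := by
  have h0 : a ≠ 0 := by
    rintro rfl
    exact ha (map_zero _)
  rw [coeff_inv_mul_self]
  have h1 : a.coeff ≠ 0 := fun h => h0 (by simpa using h)
  obtain ⟨n, hn⟩ := Finsupp.ne_iff.mp h1
  have h2 : n ∈ a.coeff.support := Finsupp.mem_support_iff.mpr (by simpa using hn)
  have h3 : (a.coeff n) ^ 2 ≤ ∑ n ∈ a.coeff.support, (a.coeff n) ^ 2 :=
    Finset.single_le_sum (f := fun n => (a.coeff n) ^ 2) (fun m _ => sq_nonneg _) h2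
  have h4 : 0 < (a.coeff n) ^ 2 := by
    have : a.coeff n ≠ 0 := by simpa using hn
    positivity
  linarith

/-- `7` is not a sum of three integer squares. -/
theorem seven (a b c : ℤ) (h : a ^ 2 + b ^ 2 + c ^ 2 = 7) : False := by
  have ha : a ^ 2 ≤ 7 := by nlinarith [sq_nonneg b, sq_nonneg c]
  have hb : b ^ 2 ≤ 7 := by nlinarith [sq_nonneg a, sq_nonneg c]
  have hc : c ^ 2 ≤ 7 := by nlinarith [sq_nonneg b, sq_nonneg a]
  have ha1 : a ≤ 2 := by nlinarith
  have ha2 : -2 ≤ a := by nlinarith
  have hb1 : b ≤ 2 := by nlinarith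
  have hb2 : -2 ≤ b := by nlinarith
  have hc1 : c ≤ 2 := by nlinarith
  have hc2 : -2 ≤ c := by nlinarith
  interval_cases a <;> interval_cases b <;> interval_cases c <;> omega

/-- The Laurent polynomial `t² + t + 3 + t⁻¹ + t⁻²` is not a sum of four norms. -/
theorem not_sum_of_norms (a b c d : LaurentPolynomial ℤ)
    (h : inv a * a + inv b * b + inv c * c + inv d * d
      = T 1 ^ 2 + T 1 + 3 + T (-1) + T (-1) ^ 2) : False := by
  have e1 : (aug a) ^ 2 + (aug b) ^ 2 + (aug c) ^ 2 + (aug d) ^ 2 = 7 := by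
    have := congrArg aug h
    simp only [map_add, map_mul, aug_inv, map_pow, aug_T, map_ofNat] at this
    linarith
  have e2 : (inv a * a).coeff 0 + (inv b * b).coeff 0 + (inv c * c).coeff 0
      + (inv d * d).coeff 0 = 3 := by
    have h3 := congrArg (fun p : LaurentPolynomial ℤ => p.coeff 0) h
    have hT2 : (T 1 : LaurentPolynomial ℤ) ^ 2 = T 2 := by rw [T_pow]; norm_num
    have hT3 : (T (-1) : LaurentPolynomial ℤ) ^ 2 = T (-2) := by rw [T_pow]; norm_num
    have h33 : (3 : LaurentPolynomial ℤ) = C 3 := by simp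
    rw [hT2, hT3, h33] at h3
    simpa [AddMonoidAlgebra.coeff_add, Finsupp.add_apply] using h3
  have ha : aug a ≠ 0 := by
    intro h0
    rw [h0] at e1
    exact seven (aug b) (aug c) (aug d) (by linarith)
  have hb : aug b ≠ 0 := by
    intro h0
    rw [h0] at e1
    exact seven (aug a) (aug c) (aug d) (by linarith)
  have hc : aug c ≠ 0 := by
    intro h0
    rw [h0] at e1
    exact seven (aug a) (aug b) (aug d) (by linarith)
  have hd : aug d ≠ 0 := by
    intro h0
    rw [h0] at e1
    exact seven (aug a) (aug b) (aug c) (by linarith)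
  linarith [coeff_pos a ha, coeff_pos b hb, coeff_pos c hc, coeff_pos d hd]

end Pool.Agent.H38.HT
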